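import Mathlib

open MeasureTheory Set

namespace Pool.Agent.Results.MP_ec7c5f_an.ContinuousChoice

/-- The Euclidean plane. -/
abbrev Plane : Type := EuclideanSpace ℝ (Fin 2)

/-- The line `L(θ, p) = {x | x · θ = p}`. -/
def lineSet (θ : Plane) (p : ℝ) : Set Plane := {x | inner ℝ x θ = p}

/-- Parameters `(θ, p)` of lines: a unit vector and a real number. -/
abbrev LineParam : Type := Metric.sphere (0 : Plane) 1 × ℝ

/-- The identification of `(θ, p)` with `(-θ, -p)`. -/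
def lineSetoid : Setoid LineParam where
  r a b := a = b ∨ ((a.1 : Plane) = -(b.1 : Plane) ∧ a.2 = -b.2)
  iseqv :=
    { refl := fun a => Or.inl rfl
      symm := by
        rintro a b (h | ⟨h1, h2⟩)
        · exact Or.inl h.symm
        · exact Or.inr ⟨by rw [h1, neg_neg], by rw [h2, neg_neg]⟩
      trans := by
        rintro a b c (h | ⟨h1, h2⟩) (h' | ⟨h1', h2'⟩)
        · exact Or.inl (h.trans h')
        · exact Or.inr ⟨by rw [h]; exact h1', by rw [h]; exact h2'⟩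
        · exact Or.inr ⟨by rw [← h']; exact h1, by rw [← h']; exact h2⟩
        · refine Or.inl (Prod.ext (Subtype.ext ?_) ?_)
          · rw [h1, h1', neg_neg]
          · rw [h2, h2', neg_neg] }

/-- The space of lines of the plane, with the quotient topology of `S¹ × ℝ`. -/
def LineSpace : Type := Quotient lineSetoid

instance : TopologicalSpace LineSpace :=
  inferInstanceAs (TopologicalSpace (Quotient lineSetoid))

/-- The set of points of a line. -/
def LineSpace.points (L : LineSpace) : Set Plane :=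
  Quotient.lift (s := lineSetoid) (fun a : LineParam => lineSet a.1 a.2) (by
    rintro a b (h | ⟨h1, h2⟩)
    · rw [h]
    · ext x
      simp only [lineSet, Set.mem_ofPred_eq, h1, h2, inner_neg_right, neg_inj]) L

/-- Distance of a line from the origin. -/
def absP (L : LineSpace) : ℝ :=
  Quotient.lift (s := lineSetoid) (fun a : LineParam => |a.2|) (by
    rintro a b (h | ⟨h1, h2⟩)
    · rw [h]
    · simp only [h2, abs_neg]) L

lemma continuous_absP : Continuous absP := by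
  unfold absP
  exact Continuous.quotient_lift (s := lineSetoid) (f := fun a : LineParam => |a.2|)
    (continuous_abs.comp continuous_snd) _

/-- the scale `η_n = 4^{-2^n}` -/
noncomputable def eta (n : ℕ) : ℝ := (1 / 4 : ℝ) ^ (2 ^ n)

lemma eta_pos (n : ℕ) : 0 < eta n := by unfold eta; positivity

lemma eta_le (n : ℕ) : eta n ≤ 1 / 4 := by
  unfold eta
  have h : (1 : ℕ) ≤ 2 ^ n := Nat.one_le_two_pow
  calc (1 / 4 : ℝ) ^ (2 ^ n) ≤ (1 / 4 : ℝ) ^ 1 :=
        pow_le_pow_of_le_one (by norm_num) (by norm_num) h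
    _ = 1 / 4 := by norm_num

lemma eta_succ (n : ℕ) : eta (n + 1) = eta n ^ 2 := by
  unfold eta
  rw [pow_succ, pow_mul]

lemma eta_anti {m n : ℕ} (h : m ≤ n) : eta n ≤ eta m := by
  unfold eta
  exact pow_le_pow_of_le_one (by norm_num) (by norm_num) (Nat.pow_le_pow_right (by norm_num) h)

lemma eta_tendsto (c : ℝ) (hc : 0 < c) : ∃ n, eta n < c := by
  obtain ⟨n, hn⟩ := exists_pow_lt_of_lt_one hc (show (1 / 4 : ℝ) < 1 by norm_num)
  refine ⟨n, lt_of_le_of_lt ?_ hn⟩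
  unfold eta
  exact pow_le_pow_of_le_one (by norm_num) (by norm_num) (Nat.lt_two_pow_self).le

/-- The set of radii: `[0,1]` minus the gaps `(1 - ε_n + ε_n², 1 - ε_n²)`, `ε_n = η_n²`. -/
def radii : Set ℝ :=
  {r | 0 ≤ r ∧ r ≤ 1 ∧ ∀ n, r ≤ 1 - eta n ^ 2 + eta n ^ 4 ∨ 1 - eta n ^ 4 ≤ r}

lemma isClosed_radii : IsClosed radii := by
  have : radii = Set.Ici 0 ∩ (Set.Iic 1 ∩
      ⋂ n, (Set.Iic (1 - eta n ^ 2 + eta n ^ 4) ∪ Set.Ici (1 - eta n ^ 4))) := by
    ext r
    simp [radii]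
  rw [this]
  exact isClosed_Ici.inter (isClosed_Iic.inter
    (isClosed_iInter fun n => isClosed_Iic.union isClosed_Ici))

/-- The counterexample: a compact union of concentric annuli. -/
def theSet : Set Plane := {x | ‖x‖ ∈ radii}

lemma isCompact_theSet : IsCompact theSet := by
  have hc : IsClosed theSet := isClosed_radii.preimage continuous_norm
  refine (isCompact_closedBall (0 : Plane) 1).of_isClosed_subset hc ?_
  intro x hx
  simpa using hx.2.1

/-- section of the set by a line at distance `q` -/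
def slice (q : ℝ) : Set ℝ := {s | Real.sqrt (q ^ 2 + s ^ 2) ∈ radii}

/-- the orthogonal unit vector -/
noncomputable def perp (θ : Plane) : Plane := !₂[-(θ 1), θ 0]

lemma inner_perp (θ : Plane) : inner ℝ (perp θ) θ = 0 := by
  simp [perp, PiLp.inner_apply, Fin.sum_univ_two]
  ring

lemma norm_sq_eq (x : Plane) : ‖x‖ ^ 2 = x 0 ^ 2 + x 1 ^ 2 := by
  rw [EuclideanSpace.norm_sq_eq]
  simp [Fin.sum_univ_two]

lemma norm_perp (θ : Plane) : ‖perp θ‖ = ‖θ‖ := by
  have h : ‖perp θ‖ ^ 2 = ‖θ‖ ^ 2 := by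
    rw [norm_sq_eq, norm_sq_eq]
    simp [perp]
    ring
  exact (pow_left_inj₀ (norm_nonneg _) (norm_nonneg _) two_ne_zero).mp h

/-- parametrization of the line by arc length -/
noncomputable def param (θ : Plane) (p : ℝ) (s : ℝ) : Plane := p • θ + s • perp θ

lemma isometry_param (θ : Plane) (hθ : ‖θ‖ = 1) (p : ℝ) : Isometry (param θ p) := by
  refine Isometry.of_dist_eq fun s t => ?_
  rw [dist_eq_norm, Real.dist_eq, param, param, add_sub_add_left_eq_sub, ← sub_smul, norm_smul,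
    norm_perp, hθ, mul_one, Real.norm_eq_abs]

lemma norm_param (θ : Plane) (hθ : ‖θ‖ = 1) (p s : ℝ) :
    ‖param θ p s‖ = Real.sqrt (p ^ 2 + s ^ 2) := by
  symm
  rw [Real.sqrt_eq_iff_mul_self_eq (by positivity) (norm_nonneg _), ← pow_two]
  have h1 : θ 0 ^ 2 + θ 1 ^ 2 = 1 := by
    rw [← norm_sq_eq, hθ]; norm_num
  rw [norm_sq_eq]
  simp only [param, perp, PiLp.add_apply, PiLp.smul_apply, smul_eq_mul]
  simp
  linear_combination (-(p ^ 2 + s ^ 2)) * h1

lemma range_param (θ : Plane) (hθ : ‖θ‖ = 1) (p : ℝ) : Set.range (param θ p) = lineSet θ p := by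
  have h1 : θ 0 ^ 2 + θ 1 ^ 2 = 1 := by
    rw [← norm_sq_eq, hθ]; norm_num
  ext x
  simp only [Set.mem_range, lineSet, Set.mem_ofPred_eq]
  constructor
  · rintro ⟨s, rfl⟩
    rw [param, inner_add_left, inner_smul_left, inner_smul_left, inner_perp,
      real_inner_self_eq_norm_sq, hθ]
    simp
  · intro hx
    have hx' : x 0 * θ 0 + x 1 * θ 1 = p := by
      rw [← hx]
      simp [PiLp.inner_apply, Fin.sum_univ_two]
      ring
    refine ⟨-(x 0) * θ 1 + x 1 * θ 0, ?_⟩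
    ext i
    fin_cases i
    · simp [param, perp]
      rw [← hx']
      linear_combination (x 0) * h1
    · simp [param, perp]
      rw [← hx']
      linear_combination (x 1) * h1

lemma measure_line (θ : Plane) (hθ : ‖θ‖ = 1) (p : ℝ) :
    μH[1] (lineSet θ p ∩ theSet) = volume (slice |p|) := by
  have h : lineSet θ p ∩ theSet = param θ p '' (slice |p|) := by
    rw [← range_param θ hθ p]
    ext x
    constructor
    · rintro ⟨⟨s, rfl⟩, hx⟩
      refine ⟨s, ?_, rfl⟩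
      simpa [slice, theSet, norm_param θ hθ] using hx
    · rintro ⟨s, hs, rfl⟩
      refine ⟨⟨s, rfl⟩, ?_⟩
      simpa [slice, theSet, norm_param θ hθ] using hs
  rw [h, (isometry_param θ hθ p).hausdorffMeasure_image (Or.inl zero_le_one),
    hausdorffMeasure_real]

lemma measure_points (L : LineSpace) :
    μH[1] (L.points ∩ theSet) = volume (slice (absP L)) := by
  induction L using Quotient.inductionOn with
  | h a => exact measure_line a.1 (by simp) a.2

/-- lines at distance `≥ 1` meet the set in a null set -/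
lemma slice_far {q : ℝ} (hq : 1 ≤ q) : volume (slice q) = 0 := by
  refine measure_mono_null (t := {0}) ?_ (by simp)
  intro s hs
  have h1 := hs.2.1
  rw [Real.sqrt_le_left zero_le_one] at h1
  have : s ^ 2 ≤ 0 := by nlinarith
  have h0 : s = 0 := by nlinarith
  simp [h0]

/-- the `n`-th annulus consists of good radii -/
lemma annulus_mem {n : ℕ} {r : ℝ} (h1 : 1 - eta n ^ 2 ≤ r) (h2 : r ≤ 1 - eta n ^ 2 + eta n ^ 4) :
    r ∈ radii := by
  have hp := eta_pos n
  have hl := eta_le n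
  have hsq : eta n ^ 2 ≤ 1 / 16 := by nlinarith
  have h4 : eta n ^ 4 = (eta n ^ 2) ^ 2 := by ring
  have h4' : eta n ^ 4 ≤ eta n ^ 2 / 16 := by rw [h4]; nlinarith [sq_nonneg (eta n)]
  refine ⟨by nlinarith [pow_pos hp 2], by nlinarith [pow_pos hp 2], fun m => ?_⟩
  rcases lt_trichotomy m n with h | h | h
  · right
    refine le_trans ?_ h1
    have h3 : eta n ≤ eta (m + 1) := eta_anti h
    rw [eta_succ] at h3
    have : eta n ^ 2 ≤ (eta m ^ 2) ^ 2 := by
      apply pow_le_pow_left₀ hp.le h3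
    have h5 : (eta m ^ 2) ^ 2 = eta m ^ 4 := by ring
    linarith
  · left; rw [h]; exact h2
  · left
    refine le_trans h2 ?_
    have h3 : eta m ≤ eta (n + 1) := eta_anti h
    rw [eta_succ] at h3
    have h6 : eta m ^ 2 ≤ (eta n ^ 2) ^ 2 := pow_le_pow_left₀ (eta_pos m).le h3 2
    have h7 : 0 ≤ eta m ^ 4 := by have := eta_pos m; positivity
    have h8 : 0 < eta n ^ 2 := pow_pos hp 2
    rw [← h4] at h6
    linarith

/-- lower bound for lines at distance at most `1 - ε_n` -/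
lemma slice_lower {n : ℕ} {q : ℝ} (hq0 : 0 ≤ q) (hq : q ≤ 1 - eta n ^ 2) :
    ENNReal.ofReal (eta n ^ 4) ≤ volume (slice q) := by
  set R := 1 - eta n ^ 2 with hR
  set w := eta n ^ 4 with hw
  have hw0 : 0 < w := by have := eta_pos n; positivity
  have hR0 : 0 ≤ R := hq0.trans hq
  have hsub : Set.Icc (Real.sqrt (R ^ 2 - q ^ 2)) (Real.sqrt (R ^ 2 - q ^ 2) + w) ⊆ slice q := by
    intro s hs
    have hd : 0 ≤ R ^ 2 - q ^ 2 := by nlinarith
    have hA : 0 ≤ Real.sqrt (R ^ 2 - q ^ 2) := Real.sqrt_nonneg _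
    have hA2 : Real.sqrt (R ^ 2 - q ^ 2) ^ 2 = R ^ 2 - q ^ 2 := Real.sq_sqrt hd
    have hAR : Real.sqrt (R ^ 2 - q ^ 2) ≤ R := by
      rw [Real.sqrt_le_left hR0]; nlinarith
    refine annulus_mem (n := n) ?_ ?_
    · refine Real.le_sqrt_of_sq_le ?_
      nlinarith [hs.1, hs.2]
    · rw [Real.sqrt_le_left (by linarith)]
      have h1 : s ^ 2 ≤ (Real.sqrt (R ^ 2 - q ^ 2) + w) ^ 2 := by
        apply pow_le_pow_left₀ (hA.trans hs.1) hs.2
      nlinarith [hs.1, hs.2]
  calc ENNReal.ofReal w = volume (Set.Icc (Real.sqrt (R ^ 2 - q ^ 2))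
        (Real.sqrt (R ^ 2 - q ^ 2) + w)) := by rw [Real.volume_Icc]; congr 1; ring
    _ ≤ _ := measure_mono hsub

/-- the line at distance `1 - ε_n` has a long intersection -/
lemma slice_tangent (n : ℕ) : ENNReal.ofReal (2 * eta n ^ 2) ≤ volume (slice (1 - eta n ^ 2)) := by
  have hp := eta_pos n
  have hl := eta_le n
  have hsq : eta n ^ 2 ≤ 1 / 16 := by nlinarith
  have hsub : Set.Icc (-(eta n ^ 2)) (eta n ^ 2) ⊆ slice (1 - eta n ^ 2) := by
    intro s hs
    have hs2 : s ^ 2 ≤ (eta n ^ 2) ^ 2 := by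
      apply sq_le_sq'
      · exact hs.1
      · exact hs.2
    refine annulus_mem (n := n) ?_ ?_
    · refine Real.le_sqrt_of_sq_le ?_
      nlinarith
    · rw [Real.sqrt_le_left (by nlinarith [pow_pos hp 4, pow_pos hp 2])]
      have h4 : eta n ^ 4 = (eta n ^ 2) ^ 2 := by ring
      rw [h4]
      nlinarith [pow_pos hp 2, sq_nonneg ((eta n ^ 2) ^ 2)]
  calc ENNReal.ofReal (2 * eta n ^ 2) = volume (Set.Icc (-(eta n ^ 2)) (eta n ^ 2)) := by
        rw [Real.volume_Icc]; congr 1; ring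
    _ ≤ _ := measure_mono hsub

/-- measure of the set of `s` with `a ≤ p² + s² ≤ b` -/
lemma volume_shell {p a b c : ℝ} (hc : 0 < c) (ha : c ^ 2 ≤ a - p ^ 2) (hab : a ≤ b) :
    volume {s : ℝ | a ≤ p ^ 2 + s ^ 2 ∧ p ^ 2 + s ^ 2 ≤ b} ≤ ENNReal.ofReal ((b - a) / c) := by
  have hA : 0 ≤ a - p ^ 2 := le_trans (by positivity) ha
  have hB : 0 ≤ b - p ^ 2 := by linarith
  set A := Real.sqrt (a - p ^ 2) with hAdef
  set B := Real.sqrt (b - p ^ 2) with hBdef
  have hA0 : 0 ≤ A := Real.sqrt_nonneg _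
  have hB0 : 0 ≤ B := Real.sqrt_nonneg _
  have hA2 : A ^ 2 = a - p ^ 2 := Real.sq_sqrt hA
  have hB2 : B ^ 2 = b - p ^ 2 := Real.sq_sqrt hB
  have hcA : c ≤ A := Real.le_sqrt_of_sq_le ha
  have hAB : A ≤ B := Real.sqrt_le_sqrt (by linarith)
  have hsub : {s : ℝ | a ≤ p ^ 2 + s ^ 2 ∧ p ^ 2 + s ^ 2 ≤ b} ⊆ Set.Icc (-B) (-A) ∪ Set.Icc A B := by
    rintro s ⟨h1, h2⟩
    have h3 : A ≤ |s| := by
      rw [← Real.sqrt_sq_eq_abs]; exact Real.sqrt_le_sqrt (by linarith)
    have h4 : |s| ≤ B := by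
      rw [← Real.sqrt_sq_eq_abs]; exact Real.sqrt_le_sqrt (by linarith)
    rcases abs_cases s with ⟨h5, _⟩ | ⟨h5, _⟩
    · right; rw [h5] at h3 h4; exact ⟨h3, h4⟩
    · left; rw [h5] at h3 h4; exact ⟨by linarith, by linarith⟩
  calc volume {s : ℝ | a ≤ p ^ 2 + s ^ 2 ∧ p ^ 2 + s ^ 2 ≤ b}
      ≤ volume (Set.Icc (-B) (-A) ∪ Set.Icc A B) := measure_mono hsub
    _ ≤ volume (Set.Icc (-B) (-A)) + volume (Set.Icc A B) := measure_union_le _ _
    _ = ENNReal.ofReal (2 * (B - A)) := by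
        rw [Real.volume_Icc, Real.volume_Icc, ← ENNReal.ofReal_add (by linarith) (by linarith)]
        congr 1; ring
    _ ≤ ENNReal.ofReal ((b - a) / c) := by
        apply ENNReal.ofReal_le_ofReal
        rw [le_div_iff₀ hc]
        nlinarith

/-- the line at distance `1 - 2 ε_n` has a short intersection -/
lemma slice_gap {n : ℕ} (hn : 1 ≤ n) :
    volume (slice (1 - 2 * eta n ^ 2)) < ENNReal.ofReal (2 * eta n ^ 2) := by
  obtain ⟨m, rfl⟩ : ∃ m, n = m + 1 := ⟨n - 1, by omega⟩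
  set η := eta (m + 1) with hη
  have hηm : η = eta m ^ 2 := eta_succ m
  have hp : 0 < η := eta_pos _
  have hpm : 0 < eta m := eta_pos m
  have hlm : eta m ≤ 1 / 4 := eta_le m
  have hl : η ≤ 1 / 16 := by rw [hηm]; nlinarith
  have h4 : η ^ 4 = (η ^ 2) ^ 2 := by ring
  have hη2 : 0 < η ^ 2 := by positivity
  have hη2l : η ^ 2 ≤ η / 16 := by nlinarith
  have hη4 : η ^ 4 ≤ η ^ 2 / 256 := by rw [h4]; nlinarith
  have hsub : slice (1 - 2 * η ^ 2) ⊆
      {s : ℝ | (1 - η ^ 2) ^ 2 ≤ (1 - 2 * η ^ 2) ^ 2 + s ^ 2 ∧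
        (1 - 2 * η ^ 2) ^ 2 + s ^ 2 ≤ (1 - η ^ 2 + η ^ 4) ^ 2} ∪
      {s : ℝ | (1 - η ^ 4) ^ 2 ≤ (1 - 2 * η ^ 2) ^ 2 + s ^ 2 ∧
        (1 - 2 * η ^ 2) ^ 2 + s ^ 2 ≤ 1} := by
    intro s hs
    obtain ⟨h0, h1, h2⟩ := hs
    set r := Real.sqrt ((1 - 2 * η ^ 2) ^ 2 + s ^ 2) with hr
    have hr2 : r ^ 2 = (1 - 2 * η ^ 2) ^ 2 + s ^ 2 := Real.sq_sqrt (by positivity)
    have hrp : 1 - 2 * η ^ 2 ≤ r := Real.le_sqrt_of_sq_le (by nlinarith)
    have hbig : 1 - η ^ 2 ≤ r := by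
      rcases h2 m with h | h
      · exfalso
        have e1 : eta m ^ 2 = η := hηm.symm
        have e2 : eta m ^ 4 = η ^ 2 := by rw [hηm]; ring
        rw [e1, e2] at h
        nlinarith
      · have e2 : eta m ^ 4 = η ^ 2 := by rw [hηm]; ring
        rw [e2] at h
        exact h
    rcases h2 (m + 1) with h | h
    · left
      simp only [Set.mem_ofPred_eq]
      rw [← hr2]
      refine ⟨?_, ?_⟩
      · apply pow_le_pow_left₀ (by nlinarith) hbig
      · apply pow_le_pow_left₀ h0 h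
    · right
      simp only [Set.mem_ofPred_eq]
      rw [← hr2]
      refine ⟨?_, ?_⟩
      · apply pow_le_pow_left₀ _ h
        nlinarith
      · exact pow_le_one₀ h0 h1
  have hv1 : volume {s : ℝ | (1 - η ^ 2) ^ 2 ≤ (1 - 2 * η ^ 2) ^ 2 + s ^ 2 ∧
        (1 - 2 * η ^ 2) ^ 2 + s ^ 2 ≤ (1 - η ^ 2 + η ^ 4) ^ 2} ≤
      ENNReal.ofReal (((1 - η ^ 2 + η ^ 4) ^ 2 - (1 - η ^ 2) ^ 2) / η) := by
    apply volume_shell hp
    · nlinarith
    · nlinarith [pow_pos hp 4]
  have hv2 : volume {s : ℝ | (1 - η ^ 4) ^ 2 ≤ (1 - 2 * η ^ 2) ^ 2 + s ^ 2 ∧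
        (1 - 2 * η ^ 2) ^ 2 + s ^ 2 ≤ 1} ≤
      ENNReal.ofReal ((1 - (1 - η ^ 4) ^ 2) / η) := by
    apply volume_shell hp
    · nlinarith [pow_pos hp 4]
    · nlinarith [pow_pos hp 4]
  have hpos1 : 0 ≤ ((1 - η ^ 2 + η ^ 4) ^ 2 - (1 - η ^ 2) ^ 2) / η := by
    apply div_nonneg _ hp.le
    nlinarith [pow_pos hp 4]
  have hpos2 : 0 ≤ (1 - (1 - η ^ 4) ^ 2) / η := by
    apply div_nonneg _ hp.le
    nlinarith [pow_pos hp 4]
  calc volume (slice (1 - 2 * η ^ 2)) ≤ _ := measure_mono hsub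
    _ ≤ _ := measure_union_le _ _
    _ ≤ _ := add_le_add hv1 hv2
    _ = ENNReal.ofReal (((1 - η ^ 2 + η ^ 4) ^ 2 - (1 - η ^ 2) ^ 2) / η +
          (1 - (1 - η ^ 4) ^ 2) / η) := (ENNReal.ofReal_add hpos1 hpos2).symm
    _ < ENNReal.ofReal (2 * η ^ 2) := by
        rw [ENNReal.ofReal_lt_ofReal_iff (by positivity), ← add_div, div_lt_iff₀ hp]
        have e3 : η ^ 3 = η * η ^ 2 := by ring
        nlinarith [pow_pos hp 3, pow_pos hp 4, pow_pos hp 8]

lemma volume_theSet_pos : 0 < volume theSet := by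
  have h : Metric.ball (0 : Plane) (1 / 2) ⊆ theSet := by
    intro x hx
    have hx' : ‖x‖ < 1 / 2 := by simpa using hx
    refine ⟨norm_nonneg _, by linarith, fun n => Or.inl ?_⟩
    have hl := eta_le n
    have hp := eta_pos n
    nlinarith [pow_pos hp 4]
  exact lt_of_lt_of_le (Metric.measure_ball_pos volume 0 (by norm_num)) (measure_mono h)

/-- **Croft's second question has a negative answer.**  There is a compact plane set `E` of
positive (finite) area such that for no `δ > 0` is there a continuous family of lines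
`L_t`, `0 < t < δ`, with `ℋ¹(L_t ∩ E) = t` for all `t`. -/
theorem result :
    ∃ E : Set Plane, IsCompact E ∧ MeasurableSet E ∧ 0 < volume E ∧ volume E < ⊤ ∧
      ¬ ∃ δ : ℝ, 0 < δ ∧ ∃ L : Set.Ioo (0 : ℝ) δ → LineSpace, Continuous L ∧
        ∀ t : Set.Ioo (0 : ℝ) δ, μH[1] ((L t).points ∩ E) = ENNReal.ofReal t := by
  refine ⟨theSet, isCompact_theSet, isCompact_theSet.isClosed.measurableSet, volume_theSet_pos,
    isCompact_theSet.measure_lt_top, ?_⟩
  rintro ⟨δ, hδ, L, hL, hm⟩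
  -- the distance function along the path
  have hq : Continuous (fun t => absP (L t)) := continuous_absP.comp hL
  have hM : ∀ t : Set.Ioo (0 : ℝ) δ, volume (slice (absP (L t))) = ENNReal.ofReal t := by
    intro t
    rw [← measure_points]
    exact hm t
  have habs : ∀ L : LineSpace, 0 ≤ absP L := by
    intro L
    induction L using Quotient.inductionOn with
    | h a => exact abs_nonneg _
  -- all lines of the path are at distance `< 1`
  have hlt : ∀ t : Set.Ioo (0 : ℝ) δ, absP (L t) < 1 := by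
    intro t
    by_contra h
    push Not at h
    have h1 := hM t
    rw [slice_far h] at h1
    have h2 := t.2.1
    rw [eq_comm, ENNReal.ofReal_eq_zero] at h1
    linarith
  set t0 : Set.Ioo (0 : ℝ) δ := ⟨δ / 2, by constructor <;> linarith⟩ with ht0
  obtain ⟨n0, hn0⟩ := eta_tendsto (1 - absP (L t0)) (by linarith [hlt t0])
  set n := n0 + 1 with hn
  have hp : 0 < eta n := eta_pos n
  have hl : eta n ≤ 1 / 4 := eta_le n
  have hpn : absP (L t0) < 1 - 2 * eta n ^ 2 := by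
    have h1 : eta n = eta n0 ^ 2 := eta_succ n0
    have h2 : eta n0 ≤ 1 / 4 := eta_le n0
    have h3 := eta_pos n0
    nlinarith
  -- a small parameter
  set τ : ℝ := min (δ / 4) (eta n ^ 4 / 2) with hτ
  have hτ0 : 0 < τ := lt_min (by linarith) (by positivity)
  set t1 : Set.Ioo (0 : ℝ) δ := ⟨τ, hτ0, by
    have := min_le_left (δ / 4) (eta n ^ 4 / 2); linarith⟩ with ht1
  have hq1 : 1 - eta n ^ 2 < absP (L t1) := by
    by_contra h
    push Not at h
    have h1 := slice_lower (habs _) h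
    rw [hM t1, ENNReal.ofReal_le_ofReal_iff hτ0.le] at h1
    have h2 := min_le_right (δ / 4) (eta n ^ 4 / 2)
    have h3 : 0 < eta n ^ 4 := by positivity
    have h4 : (t1 : ℝ) = τ := rfl
    linarith
  have ht10 : t1 ≤ t0 := by
    have := min_le_left (δ / 4) (eta n ^ 4 / 2)
    rw [← Subtype.coe_le_coe]
    show τ ≤ δ / 2
    linarith
  -- first intermediate value
  have hconn : ∀ a b : Set.Ioo (0 : ℝ) δ, a ≤ b → ∀ c : ℝ, absP (L b) ≤ c → c ≤ absP (L a) →
      ∃ s : Set.Ioo (0 : ℝ) δ, a ≤ s ∧ s ≤ b ∧ absP (L s) = c := by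
    intro a b hab c h1 h2
    have hab' : (a : ℝ) ≤ b := hab
    have hmem : ∀ x : ℝ, max (a : ℝ) (min x b) ∈ Set.Ioo (0 : ℝ) δ := fun x =>
      ⟨lt_of_lt_of_le a.2.1 (le_max_left _ _),
        lt_of_le_of_lt (max_le hab' (min_le_right _ _)) b.2.2⟩
    set γ : ℝ → Set.Ioo (0 : ℝ) δ := fun x => ⟨max (a : ℝ) (min x b), hmem x⟩ with hγ
    have hγc : Continuous γ := by
      refine Continuous.subtype_mk ?_ _
      fun_prop
    have hγa : γ a = a := Subtype.ext (by simp [hγ, hab'])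
    have hγb : γ b = b := Subtype.ext (by simp [hγ, hab'])
    have hcont : ContinuousOn (fun x => absP (L (γ x))) (Set.Icc (a : ℝ) b) :=
      (hq.comp hγc).continuousOn
    obtain ⟨x, hx, hx2⟩ := intermediate_value_Icc' hab' hcont
      (show c ∈ Set.Icc (absP (L (γ b))) (absP (L (γ a))) by rw [hγa, hγb]; exact ⟨h1, h2⟩)
    have hxe : ((γ x : Set.Ioo (0 : ℝ) δ) : ℝ) = x := by
      simp [hγ, hx.1, hx.2]
    refine ⟨γ x, ?_, ?_, hx2⟩
    · rw [← Subtype.coe_le_coe, hxe]; exact hx.1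
    · rw [← Subtype.coe_le_coe, hxe]; exact hx.2
  obtain ⟨s2, hs2a, -, hs2⟩ := hconn t1 t0 ht10 (1 - 2 * eta n ^ 2) hpn.le
    (by nlinarith [pow_pos hp 2])
  obtain ⟨s3, -, hs3b, hs3⟩ := hconn t1 s2 hs2a (1 - eta n ^ 2)
    (by rw [hs2]; nlinarith [pow_pos hp 2]) hq1.le
  have e2 : ENNReal.ofReal s2 < ENNReal.ofReal (2 * eta n ^ 2) := by
    rw [← hM s2, hs2]
    exact slice_gap (by omega)
  have e3 : ENNReal.ofReal (2 * eta n ^ 2) ≤ ENNReal.ofReal s3 := by
    rw [← hM s3, hs3]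
    exact slice_tangent n
  have e4 : ENNReal.ofReal (s2 : ℝ) < ENNReal.ofReal (s3 : ℝ) := lt_of_lt_of_le e2 e3
  rw [ENNReal.ofReal_lt_ofReal_iff s3.2.1] at e4
  have e5 : (s3 : ℝ) ≤ s2 := hs3b
  linarith

end Pool.Agent.Results.MP_ec7c5f_an.ContinuousChoice
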