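import Pool.Agent.H63.CR.FIN

open MeasureTheory

namespace Pool.Agent.Results.MP_ec7c5f_an.SmallSections

/-- There is a bounded Lebesgue measurable plane set of positive area such that for arbitrarily small
`t > 0` no line at all meets it in linear measure `t`. -/
theorem result :
    ∃ E : Set (EuclideanSpace ℝ (Fin 2)),
      Bornology.IsBounded E ∧ NullMeasurableSet E volume ∧ 0 < volume E ∧ volume E < ⊤ ∧
      ∀ δ : ℝ, 0 < δ → ∃ t : ℝ, 0 < t ∧ t < δ ∧
        ∀ (θ : EuclideanSpace ℝ (Fin 2)) (p : ℝ), ‖θ‖ = 1 →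
          μH[1] ({x : EuclideanSpace ℝ (Fin 2) | inner ℝ x θ = p} ∩ E) ≠ ENNReal.ofReal t :=
  Pool.Agent.H63.CR.fin_main

end Pool.Agent.Results.MP_ec7c5f_an.SmallSections
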